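import Mathlib

/-!
# MP_8e9e7d_al : nearly Gorenstein numerical semigroups with four relations

For every `K ≥ 2` the numerical semigroup with minimal generators `3K, 3K+1, 3K+2, 3K+3` is nearly
Gorenstein and not almost symmetric, and its defining ideal is minimally generated by `4`
elements, over every field.
-/

namespace Pool.Agent.Results.MP_8e9e7d_al.FourRelations

open MvPolynomial

universe u

/-- `x` is an integer lying in the submonoid `S` of `ℕ`. -/
def InZ (S : AddSubmonoid ℕ) (x : ℤ) : Prop := ∃ n ∈ S, (n : ℤ) = x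

/-- `S` is a numerical semigroup. -/
def IsNumerical (S : AddSubmonoid ℕ) : Prop := ((S : Set ℕ)ᶜ).Finite

/-- The minimal generators of `S`: the nonzero elements that are not a sum of two nonzero
elements. -/
def minGens (S : AddSubmonoid ℕ) : Set ℕ :=
  {n | n ∈ S ∧ n ≠ 0 ∧ ∀ a ∈ S, ∀ b ∈ S, a + b = n → a = 0 ∨ b = 0}

/-- The pseudo-Frobenius numbers of `S`. -/
def PF (S : AddSubmonoid ℕ) : Set ℤ :=
  {x | ¬ InZ S x ∧ ∀ s ∈ S, s ≠ 0 → InZ S (x + s)}

/-- `F` is the Frobenius number of `S`: the largest integer outside `S`. -/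
def IsFrob (S : AddSubmonoid ℕ) (F : ℤ) : Prop := IsGreatest {x : ℤ | ¬ InZ S x} F

/-- `S` is almost symmetric. -/
def AlmostSymmetric (S : AddSubmonoid ℕ) : Prop :=
  ∀ F, IsFrob S F → ∀ x : ℤ, ¬ InZ S x → InZ S (F - x) ∨ (x ∈ PF S ∧ F - x ∈ PF S)

/-- `S` is nearly Gorenstein. -/
def NearlyGorenstein (S : AddSubmonoid ℕ) : Prop :=
  ∀ g ∈ minGens S, ∃ p ∈ PF S, ∀ q ∈ PF S, InZ S ((g : ℤ) + p - q)

/-- The kernel of `k[x_1, …, x_e] → k[t]`, `x_i ↦ t ^ (g i)`. -/
noncomputable def defIdeal (k : Type u) [Field k] {e : ℕ} (g : Fin e → ℕ) :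
    Ideal (MvPolynomial (Fin e) k) :=
  RingHom.ker (aeval (fun i => (Polynomial.X : Polynomial k) ^ g i) :
    MvPolynomial (Fin e) k →ₐ[k] Polynomial k)

/-- `r` is the least number of homogeneous generators (for `deg x_i = g i`) of the ideal
`defIdeal k g`. -/
def IsRho (k : Type u) [Field k] {e : ℕ} (g : Fin e → ℕ) (r : ℕ) : Prop :=
  IsLeast {n : ℕ | ∃ f : Fin n → MvPolynomial (Fin e) k,
    (∀ i, ∃ d, IsWeightedHomogeneous g (f i) d) ∧ Ideal.span (Set.range f) = defIdeal k g} r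

/-! ### The semigroup -/

/-- The semigroup `⟨3K, 3K+1, 3K+2, 3K+3⟩`. -/
def SK (K : ℕ) : AddSubmonoid ℕ where
  carrier := {x | ∃ j, 3 * K * j ≤ x ∧ x ≤ (3 * K + 3) * j}
  zero_mem' := ⟨0, by simp⟩
  add_mem' := by
    rintro a b ⟨i, h1, h2⟩ ⟨j, h3, h4⟩
    exact ⟨i + j, by rw [mul_add]; omega, by rw [mul_add]; omega⟩

theorem mem_SK {K x : ℕ} : x ∈ SK K ↔ ∃ j, 3 * K * j ≤ x ∧ x ≤ (3 * K + 3) * j := Iff.rfl

theorem big_mem {K x : ℕ} (hK : 2 ≤ K) (hx : 3 * K * K ≤ x) : x ∈ SK K := by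
  refine ⟨x / (3 * K), Nat.mul_div_le x (3 * K), ?_⟩
  have h1 : x < 3 * K * (x / (3 * K)) + 3 * K := by
    have := Nat.lt_mul_div_succ x (show 0 < 3 * K by omega)
    rw [mul_add, mul_one] at this
    exact this
  have h2 : K ≤ x / (3 * K) := by
    rw [Nat.le_div_iff_mul_le (by omega)]
    calc K * (3 * K) = 3 * K * K := by ring
      _ ≤ x := hx
  rw [add_mul]
  omega

theorem low_mem {K j x : ℕ} (h1 : (3 * K + 3) * j < x) (h2 : x < 3 * K * (j + 1)) :
    x ∉ SK K := by
  rintro ⟨i, h3, h4⟩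
  rcases Nat.lt_or_ge j i with h | h
  · have : 3 * K * (j + 1) ≤ 3 * K * i := Nat.mul_le_mul_left _ h
    omega
  · have : (3 * K + 3) * i ≤ (3 * K + 3) * j := Nat.mul_le_mul_left _ h
    omega

theorem gen_mem {K x : ℕ} (h1 : 3 * K ≤ x) (h2 : x ≤ 3 * K + 3) : x ∈ SK K :=
  ⟨1, by omega, by omega⟩

theorem le_of_mem {K x : ℕ} (hx : x ∈ SK K) (h0 : x ≠ 0) : 3 * K ≤ x := by
  obtain ⟨j, h1, h2⟩ := hx
  rcases Nat.eq_zero_or_pos j with h | h
  · subst h; omega
  · have : 3 * K * 1 ≤ 3 * K * j := Nat.mul_le_mul_left _ h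
    omega

theorem numerical (K : ℕ) (hK : 2 ≤ K) : IsNumerical (SK K) := by
  refine Set.Finite.subset (Set.finite_Iio (3 * K * K)) ?_
  intro x hx
  by_contra hlt
  exact hx (big_mem hK (not_lt.mp hlt))

theorem minGens_SK (K : ℕ) (hK : 2 ≤ K) :
    minGens (SK K) = {3 * K, 3 * K + 1, 3 * K + 2, 3 * K + 3} := by
  ext n
  simp only [minGens, Set.mem_ofPred_eq, Set.mem_insert_iff, Set.mem_singleton_iff]
  constructor
  · rintro ⟨⟨j, h1, h2⟩, h0, hmin⟩
    rcases Nat.lt_or_ge j 2 with hj | hj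
    · interval_cases j <;> omega
    · exfalso
      obtain ⟨i, rfl⟩ : ∃ i, j = i + 1 := ⟨j - 1, by omega⟩
      rw [mul_add, mul_one] at h1 h2
      set P := 3 * K * i with hP
      have hQ : (3 * K + 3) * i = P + 3 * i := by rw [hP]; ring
      rw [hQ] at h2
      have hPpos : 0 < P := by rw [hP]; have : 0 < i := by omega
                               positivity
      -- split `n = (3K + m) + b`
      obtain ⟨m, hm, hm1, hm2⟩ : ∃ m ≤ 3, P + 3 * K + m ≤ n ∧ n ≤ P + 3 * K + m + 3 * i := by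
        refine ⟨min 3 (n - (P + 3 * K)), by omega, by omega, by omega⟩
      have hb : n - (3 * K + m) ∈ SK K := ⟨i, by omega, by rw [hQ]; omega⟩
      have := hmin (3 * K + m) (gen_mem (by omega) (by omega)) _ hb (by omega)
      omega
  · intro h
    have h1 : 3 * K ≤ n := by omega
    have h2 : n ≤ 3 * K + 3 := by omega
    refine ⟨gen_mem h1 h2, by omega, ?_⟩
    intro a ha b hb hab
    by_contra hne
    push Not at hne
    have := le_of_mem ha hne.1
    have := le_of_mem hb hne.2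
    omega

/-- `3 * K * K - c` with small `c`. -/
theorem PF_sub (K : ℕ) (hK : 2 ≤ K) (q : ℤ) (hq : q ∈ PF (SK K)) :
    q = 3 * K * K - 2 ∨ q = 3 * K * K - 1 := by
  obtain ⟨hq1, hq2⟩ := hq
  have e0 := hq2 (3 * K) (gen_mem (by omega) (by omega)) (by omega)
  have e1 := hq2 (3 * K + 1) (gen_mem (by omega) (by omega)) (by omega)
  have e3 := hq2 (3 * K + 3) (gen_mem (by omega) (by omega)) (by omega)
  obtain ⟨n, ⟨j, h1, h2⟩, hn⟩ := e0
  obtain ⟨n1, ⟨j1, h3, h4⟩, hn1⟩ := e1
  obtain ⟨n3, ⟨j3, h5, h6⟩, hn3⟩ := e3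
  push_cast at hn hn1 hn3
  have hq3 : q < 3 * K * K := by
    by_contra hge
    push Not at hge
    refine hq1 ⟨q.toNat, big_mem hK ?_, ?_⟩
    · zify
      rw [Int.toNat_of_nonneg (le_trans (by positivity) hge)]
      exact hge
    · rw [Int.toNat_of_nonneg (le_trans (by positivity) hge)]
  -- `j ≥ 1`
  rcases Nat.eq_zero_or_pos j with hj | hj
  · exfalso
    subst hj
    have hn0 : n = 0 := by omega
    subst hn0
    have hn1' : n1 = 1 := by push_cast at hn; omega
    subst hn1'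
    rcases Nat.eq_zero_or_pos j1 with hj1 | hj1
    · subst hj1; omega
    · have : 3 * K * 1 ≤ 3 * K * j1 := Nat.mul_le_mul_left _ hj1
      omega
  obtain ⟨i, rfl⟩ : ∃ i, j = i + 1 := ⟨j - 1, by omega⟩
  rw [mul_add, mul_one] at h1 h2
  have hqnn : 3 * K ≤ n := by omega
  have hqe : q = ((n - 3 * K : ℕ) : ℤ) := by omega
  -- `q` is above the block `i`
  have hgt : (3 * K + 3) * i < n - 3 * K := by
    by_contra hle
    push Not at hle
    exact hq1 ⟨n - 3 * K, ⟨i, by omega, hle⟩, hqe.symm⟩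
  have e33 : (3 * K + 3) * i = 3 * K * i + 3 * i := by ring
  -- `j3 ≥ i + 2`
  have hj3 : i + 2 ≤ j3 := by
    by_contra hlt
    have hle : j3 ≤ i + 1 := by omega
    have : (3 * K + 3) * j3 ≤ (3 * K + 3) * (i + 1) := Nat.mul_le_mul_left _ hle
    rw [mul_add, mul_one] at this
    omega
  have h5' : 3 * K * (i + 2) ≤ n3 := le_trans (Nat.mul_le_mul_left _ hj3) h5
  rw [mul_add] at h5'
  have hn3' : n3 = n + 3 := by omega
  have hn1' : n1 = n + 1 := by omega
  -- hence `3 i + 6 + 3 ≥ 3 K` roughly; refine using `n1`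
  have hKi : K ≤ i + 1 := by
    rw [e33] at h2 hgt
    by_contra hlt
    have : i + 2 ≤ K := by omega
    -- then i + 2 ≤ K and 3K*(i+2) ≤ n + 3 ≤ 3K i + 3 i + 3 K + 6
    have h7 : 3 * K * i + 6 * K ≤ n + 3 := by
      have : 3 * K * 2 = 6 * K := by ring
      omega
    -- so `n + 3 ≤ 3 K i + 3 i + 3K + 6` gives `3 K ≤ 3 i + 6`
    have h8 : K = i + 2 := by omega
    -- then `n = (3K+3)(i+1)` exactly and `n + 1` is a gap
    have h9 : n = 3 * K * i + 3 * i + (3 * K + 3) := by omega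
    refine low_mem (K := K) (j := i + 1) (x := n + 1) ?_ ?_ ?_
    · rw [mul_add, mul_one, e33]; omega
    · rw [mul_add, mul_add]; omega
    · exact hn1' ▸ ⟨j1, h3, h4⟩
  have hlow : (3 * K * K : ℤ) - 2 ≤ q := by
    rw [e33] at hgt
    obtain ⟨m, rfl⟩ : ∃ m, i = (K - 1) + m := ⟨i - (K - 1), by omega⟩
    obtain ⟨K', rfl⟩ : ∃ K', K = K' + 1 := ⟨K - 1, by omega⟩
    rw [hqe]
    have h10 : 3 * (K' + 1) * (K' + 1 - 1 + m) + 3 * (K' + 1 - 1 + m) + 1 ≤ n - 3 * (K' + 1) := hgt
    have h11 : 3 * (K' + 1) * (K' + 1) ≤ 3 * (K' + 1) * (K' + 1 - 1 + m) + 3 * (K' + 1 - 1 + m) + 3 := by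
      simp only [Nat.add_sub_cancel]
      nlinarith [Nat.zero_le m, Nat.zero_le (K' * m)]
    push_cast
    zify at h10 h11
    have h12 : ((n - 3 * (K' + 1) : ℕ) : ℤ) = n - 3 * (K' + 1) := by
      rw [Nat.cast_sub hqnn]; push_cast; ring
    rw [h12] at h10 ⊢
    linarith
  omega

theorem F2_mem (K : ℕ) (hK : 2 ≤ K) : ((3 * K * K - 2 : ℕ) : ℤ) ∈ PF (SK K) ∧
    ((3 * K * K - 1 : ℕ) : ℤ) ∈ PF (SK K) := by
  obtain ⟨L, rfl⟩ : ∃ L, K = L + 2 := ⟨K - 2, by omega⟩
  have hbig : 12 ≤ 3 * (L + 2) * (L + 2) := by nlinarith [Nat.zero_le L]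
  have key : ∀ c, 1 ≤ c → c ≤ 2 → ((3 * (L + 2) * (L + 2) - c : ℕ) : ℤ) ∈ PF (SK (L + 2)) := by
    intro c hc1 hc2
    constructor
    · rintro ⟨n, hn, hn2⟩
      have : n = 3 * (L + 2) * (L + 2) - c := by exact_mod_cast hn2
      subst this
      refine low_mem (K := L + 2) (j := L + 1) ?_ ?_ hn
      · have : (3 * (L + 2) + 3) * (L + 1) + 3 = 3 * (L + 2) * (L + 2) := by ring
        omega
      · have : 3 * (L + 2) * (L + 1 + 1) = 3 * (L + 2) * (L + 2) := by ring
        omega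
    · intro s hs hs0
      have := le_of_mem hs hs0
      refine ⟨3 * (L + 2) * (L + 2) - c + s, big_mem (by omega) (by omega), by push_cast; ring⟩
  exact ⟨key 2 (by omega) (by omega), key 1 (by omega) (by omega)⟩

theorem nearly (K : ℕ) (hK : 2 ≤ K) : NearlyGorenstein (SK K) := by
  intro g hg
  rw [minGens_SK K hK] at hg
  simp only [Set.mem_insert_iff, Set.mem_singleton_iff] at hg
  obtain ⟨hA, hB⟩ := F2_mem K hK
  have hbig : 12 ≤ 3 * K * K := by nlinarith
  have hA' : ((3 * K * K - 2 : ℕ) : ℤ) = 3 * K * K - 2 := by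
    rw [Nat.cast_sub (by omega)]; push_cast; ring
  have hB' : ((3 * K * K - 1 : ℕ) : ℤ) = 3 * K * K - 1 := by
    rw [Nat.cast_sub (by omega)]; push_cast; ring
  rw [hA'] at hA
  rw [hB'] at hB
  by_cases hg3 : g = 3 * K + 3
  · refine ⟨_, hA, ?_⟩
    intro q hq
    rcases PF_sub K hK q hq with h | h
    · exact ⟨g, gen_mem (by omega) (by omega), by rw [h]; ring⟩
    · exact ⟨g - 1, gen_mem (by omega) (by omega), by rw [h]; push_cast [show 1 ≤ g by omega]; ring⟩
  · refine ⟨_, hB, ?_⟩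
    intro q hq
    rcases PF_sub K hK q hq with h | h
    · exact ⟨g + 1, gen_mem (by omega) (by omega), by rw [h]; push_cast; ring⟩
    · exact ⟨g, gen_mem (by omega) (by omega), by rw [h]; ring⟩

theorem frob (K : ℕ) (hK : 2 ≤ K) : IsFrob (SK K) (3 * K * K - 1) := by
  have hbig : 12 ≤ 3 * K * K := by nlinarith
  have hB' : ((3 * K * K - 1 : ℕ) : ℤ) = 3 * K * K - 1 := by
    rw [Nat.cast_sub (by omega)]; push_cast; ring
  refine ⟨hB' ▸ (F2_mem K hK).2.1, ?_⟩
  intro x hx
  by_contra hlt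
  push Not at hlt
  have hge : (3 * K * K : ℤ) ≤ x := by omega
  refine hx ⟨x.toNat, big_mem hK ?_, ?_⟩
  · zify
    rw [Int.toNat_of_nonneg (le_trans (by positivity) hge)]
    exact hge
  · rw [Int.toNat_of_nonneg (le_trans (by positivity) hge)]

theorem not_as (K : ℕ) (hK : 2 ≤ K) : ¬ AlmostSymmetric (SK K) := by
  intro h
  have hbig : 12 ≤ 3 * K * K := by nlinarith
  have h1 : ¬ InZ (SK K) 1 := by
    rintro ⟨n, hn, hn1⟩
    have hn1' : n = 1 := by exact_mod_cast hn1
    subst hn1'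
    have := le_of_mem hn (by omega)
    omega
  have hbigZ : (12 : ℤ) ≤ 3 * K * K := by exact_mod_cast hbig
  rcases h _ (frob K hK) 1 h1 with h2 | ⟨h2, -⟩
  · have hA := (F2_mem K hK).1.1
    have hA' : ((3 * K * K - 2 : ℕ) : ℤ) = 3 * K * K - 2 := by
      rw [Nat.cast_sub (by omega)]; push_cast; ring
    rw [hA'] at hA
    apply hA
    convert h2 using 1
    ring
  · rcases PF_sub K hK 1 h2 with h3 | h3 <;> omega

/-! ### The defining ideal -/

/-- The generators `3K, 3K+1, 3K+2, 3K+3`. -/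
def gK (K : ℕ) : Fin 4 → ℕ := ![3 * K, 3 * K + 1, 3 * K + 2, 3 * K + 3]

section Ideal

variable (k : Type u) [Field k] (K : ℕ)

/-- The four relations. -/
noncomputable def rel : Fin 4 → MvPolynomial (Fin 4) k :=
  ![X 0 * X 2 - X 1 ^ 2, X 0 * X 3 - X 1 * X 2, X 1 * X 3 - X 2 ^ 2, X 0 ^ (K + 1) - X 3 ^ K]

theorem rel_homog (i : Fin 4) : ∃ d, IsWeightedHomogeneous (gK K) (rel k K i) d := by
  have hX : ∀ j, IsWeightedHomogeneous (gK K) (X j : MvPolynomial (Fin 4) k) (gK K j) :=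
    fun j => isWeightedHomogeneous_X k (gK K) j
  fin_cases i
  · refine ⟨6 * K + 2, ?_⟩
    have h1 := (hX 0).mul (hX 2)
    have h2 := (hX 1).pow 2
    have e1 : gK K 0 + gK K 2 = 6 * K + 2 := by simp [gK]; ring
    have e2 : 2 • gK K 1 = 6 * K + 2 := by simp [gK]; ring
    rw [e1] at h1
    rw [e2] at h2
    exact h1.sub h2
  · refine ⟨6 * K + 3, ?_⟩
    have h1 := (hX 0).mul (hX 3)
    have h2 := (hX 1).mul (hX 2)
    have e1 : gK K 0 + gK K 3 = 6 * K + 3 := by simp [gK]; ring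
    have e2 : gK K 1 + gK K 2 = 6 * K + 3 := by simp [gK]; ring
    rw [e1] at h1
    rw [e2] at h2
    exact h1.sub h2
  · refine ⟨6 * K + 4, ?_⟩
    have h1 := (hX 1).mul (hX 3)
    have h2 := (hX 2).pow 2
    have e1 : gK K 1 + gK K 3 = 6 * K + 4 := by simp [gK]; ring
    have e2 : 2 • gK K 2 = 6 * K + 4 := by simp [gK]; ring
    rw [e1] at h1
    rw [e2] at h2
    exact h1.sub h2
  · refine ⟨3 * K * (K + 1), ?_⟩
    have h1 := (hX 0).pow (K + 1)
    have h2 := (hX 3).pow K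
    have e1 : (K + 1) • gK K 0 = 3 * K * (K + 1) := by simp [gK]; ring
    have e2 : K • gK K 3 = 3 * K * (K + 1) := by simp [gK]; ring
    rw [e1] at h1
    rw [e2] at h2
    exact h1.sub h2

theorem rel_mem (i : Fin 4) : rel k K i ∈ defIdeal k (gK K) := by
  unfold defIdeal
  rw [RingHom.mem_ker]
  fin_cases i
  · simp [rel, gK]; ring
  · simp [rel, gK]; ring
  · simp [rel, gK]; ring
  · simp [rel, gK]; ring

end Ideal

/-! Normal forms in a commutative ring with four elements satisfying the relations. -/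

section NF

variable {A : Type*} [CommRing A] (x0 x1 x2 x3 : A) (K : ℕ)

/-- middle factor -/
def mid (s : ℕ) : A := if s % 3 = 0 then 1 else if s % 3 = 1 then x1 else x2

/-- normal form with `n` factors and offset `s` -/
def nf (n s : ℕ) : A := x0 ^ (n - (s + 2) / 3) * mid x1 x2 s * x3 ^ (s / 3)

variable {x0 x1 x2 x3 K}

theorem nf0 (n b : ℕ) : nf x0 x1 x2 x3 n (3 * b) = x0 ^ (n - b) * x3 ^ b := by
  have h1 : (3 * b + 2) / 3 = b := by omega
  have h2 : 3 * b / 3 = b := by omega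
  have h3 : 3 * b % 3 = 0 := by omega
  simp [nf, mid, h1, h2, h3]

theorem nf1 (n b : ℕ) : nf x0 x1 x2 x3 n (3 * b + 1) = x0 ^ (n - (b + 1)) * x1 * x3 ^ b := by
  have h1 : (3 * b + 1 + 2) / 3 = b + 1 := by omega
  have h2 : (3 * b + 1) / 3 = b := by omega
  have h3 : (3 * b + 1) % 3 = 1 := by omega
  simp [nf, mid, h1, h2, h3]

theorem nf2 (n b : ℕ) : nf x0 x1 x2 x3 n (3 * b + 2) = x0 ^ (n - (b + 1)) * x2 * x3 ^ b := by
  have h1 : (3 * b + 2 + 2) / 3 = b + 1 := by omega
  have h2 : (3 * b + 2) / 3 = b := by omega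
  have h3 : (3 * b + 2) % 3 = 2 := by omega
  simp [nf, mid, h1, h2, h3]

theorem split3 (s : ℕ) : ∃ b, s = 3 * b ∨ s = 3 * b + 1 ∨ s = 3 * b + 2 :=
  ⟨s / 3, by omega⟩

theorem nf_mul0 {n s : ℕ} (hs : s ≤ 3 * n) :
    x0 * nf x0 x1 x2 x3 n s = nf x0 x1 x2 x3 (n + 1) s := by
  obtain ⟨b, h | h | h⟩ := split3 s <;> subst h
  · rw [nf0, nf0, show n + 1 - b = (n - b) + 1 by omega, pow_succ]; ring
  · rw [nf1, nf1, show n + 1 - (b + 1) = (n - (b + 1)) + 1 by omega, pow_succ]; ring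
  · rw [nf2, nf2, show n + 1 - (b + 1) = (n - (b + 1)) + 1 by omega, pow_succ]; ring

theorem nf_mul3 {n s : ℕ} :
    x3 * nf x0 x1 x2 x3 n s = nf x0 x1 x2 x3 (n + 1) (s + 3) := by
  obtain ⟨b, h | h | h⟩ := split3 s <;> subst h
  · rw [nf0, show 3 * b + 3 = 3 * (b + 1) by ring, nf0, show n + 1 - (b + 1) = n - b by omega,
      pow_succ]; ring
  · rw [nf1, show 3 * b + 1 + 3 = 3 * (b + 1) + 1 by ring, nf1,
      show n + 1 - (b + 1 + 1) = n - (b + 1) by omega, pow_succ]; ring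
  · rw [nf2, show 3 * b + 2 + 3 = 3 * (b + 1) + 2 by ring, nf2,
      show n + 1 - (b + 1 + 1) = n - (b + 1) by omega, pow_succ]; ring

variable (r0 : x0 * x2 = x1 ^ 2) (r1 : x0 * x3 = x1 * x2) (r2 : x1 * x3 = x2 ^ 2)
  (r3 : x0 ^ (K + 1) = x3 ^ K)

include r0 r1 in
theorem nf_mul1 {n s : ℕ} (hs : s ≤ 3 * n) :
    x1 * nf x0 x1 x2 x3 n s = nf x0 x1 x2 x3 (n + 1) (s + 1) := by
  obtain ⟨b, h | h | h⟩ := split3 s <;> subst h
  · rw [nf0, nf1, show n + 1 - (b + 1) = n - b by omega]; ring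
  · rw [nf1, show 3 * b + 1 + 1 = 3 * b + 2 by ring, nf2]
    obtain ⟨m, hm⟩ : ∃ m, n = m + (b + 1) := ⟨n - (b + 1), by omega⟩
    subst hm
    rw [show m + (b + 1) - (b + 1) = m by omega, show m + (b + 1) + 1 - (b + 1) = m + 1 by omega,
      pow_succ]
    linear_combination (-(x0 ^ m * x3 ^ b)) * r0
  · rw [nf2, show 3 * b + 2 + 1 = 3 * (b + 1) by ring, nf0]
    obtain ⟨m, hm⟩ : ∃ m, n = m + (b + 1) := ⟨n - (b + 1), by omega⟩
    subst hm
    rw [show m + (b + 1) - (b + 1) = m by omega, show m + (b + 1) + 1 - (b + 1) = m + 1 by omega,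
      pow_succ, pow_succ]
    linear_combination (-(x0 ^ m * x3 ^ b)) * r1

include r1 r2 in
theorem nf_mul2 {n s : ℕ} (hs : s ≤ 3 * n) :
    x2 * nf x0 x1 x2 x3 n s = nf x0 x1 x2 x3 (n + 1) (s + 2) := by
  obtain ⟨b, h | h | h⟩ := split3 s <;> subst h
  · rw [nf0, nf2, show n + 1 - (b + 1) = n - b by omega]; ring
  · rw [nf1, show 3 * b + 1 + 2 = 3 * (b + 1) by ring, nf0]
    obtain ⟨m, hm⟩ : ∃ m, n = m + (b + 1) := ⟨n - (b + 1), by omega⟩
    subst hm
    rw [show m + (b + 1) - (b + 1) = m by omega, show m + (b + 1) + 1 - (b + 1) = m + 1 by omega,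
      pow_succ, pow_succ]
    linear_combination (-(x0 ^ m * x3 ^ b)) * r1
  · rw [nf2, show 3 * b + 2 + 2 = 3 * (b + 1) + 1 by ring, nf1]
    obtain ⟨m, hm⟩ : ∃ m, n = m + (b + 1) := ⟨n - (b + 1), by omega⟩
    subst hm
    rw [show m + (b + 1) - (b + 1) = m by omega,
      show m + (b + 1) + 1 - (b + 1 + 1) = m by omega, pow_succ]
    linear_combination (-(x0 ^ m * x3 ^ b)) * r2

include r0 r1 r2 in
theorem nf_monomial (a b c d : ℕ) :
    x0 ^ a * x1 ^ b * x2 ^ c * x3 ^ d = nf x0 x1 x2 x3 (a + b + c + d) (b + 2 * c + 3 * d) := by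
  induction d with
  | zero =>
    induction c with
    | zero =>
      induction b with
      | zero => simp [nf, mid]
      | succ b ih =>
        rw [pow_succ, show x0 ^ a * (x1 ^ b * x1) * x2 ^ 0 * x3 ^ 0 =
          x1 * (x0 ^ a * x1 ^ b * x2 ^ 0 * x3 ^ 0) by ring, ih, nf_mul1 r0 r1 (by omega)]
        congr 1
    | succ c ih =>
      rw [pow_succ, show x0 ^ a * x1 ^ b * (x2 ^ c * x2) * x3 ^ 0 =
          x2 * (x0 ^ a * x1 ^ b * x2 ^ c * x3 ^ 0) by ring, ih, nf_mul2 r1 r2 (by omega)]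
      congr 1
  | succ d ih =>
    rw [pow_succ, show x0 ^ a * x1 ^ b * x2 ^ c * (x3 ^ d * x3) =
          x3 * (x0 ^ a * x1 ^ b * x2 ^ c * x3 ^ d) by ring, ih, nf_mul3]
    congr 1

include r3 in
theorem nf_shift {n s : ℕ} (hs : s ≤ 3 * n) (hK : 3 * K ≤ s) :
    nf x0 x1 x2 x3 n s = nf x0 x1 x2 x3 (n + 1) (s - 3 * K) := by
  obtain ⟨b, h | h | h⟩ := split3 s <;> subst h
  · obtain ⟨m, rfl⟩ : ∃ m, b = K + m := ⟨b - K, by omega⟩
    rw [nf0, show 3 * (K + m) - 3 * K = 3 * m by omega, nf0]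
    obtain ⟨p, rfl⟩ : ∃ p, n = p + (K + m) := ⟨n - (K + m), by omega⟩
    rw [show p + (K + m) - (K + m) = p by omega, show p + (K + m) + 1 - m = p + (K + 1) by omega,
      pow_add, pow_add, r3]
    ring
  · obtain ⟨m, rfl⟩ : ∃ m, b = K + m := ⟨b - K, by omega⟩
    rw [nf1, show 3 * (K + m) + 1 - 3 * K = 3 * m + 1 by omega, nf1]
    obtain ⟨p, rfl⟩ : ∃ p, n = p + (K + m + 1) := ⟨n - (K + m + 1), by omega⟩
    rw [show p + (K + m + 1) - (K + m + 1) = p by omega,
      show p + (K + m + 1) + 1 - (m + 1) = p + (K + 1) by omega,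
      pow_add, pow_add, r3]
    ring
  · obtain ⟨m, rfl⟩ : ∃ m, b = K + m := ⟨b - K, by omega⟩
    rw [nf2, show 3 * (K + m) + 2 - 3 * K = 3 * m + 2 by omega, nf2]
    obtain ⟨p, rfl⟩ : ∃ p, n = p + (K + m + 1) := ⟨n - (K + m + 1), by omega⟩
    rw [show p + (K + m + 1) - (K + m + 1) = p by omega,
      show p + (K + m + 1) + 1 - (m + 1) = p + (K + 1) by omega,
      pow_add, pow_add, r3]
    ring

include r3 in
theorem nf_deg (hK : 2 ≤ K) : ∀ (s n : ℕ), s ≤ 3 * n →
    nf x0 x1 x2 x3 n s = nf x0 x1 x2 x3 ((3 * K * n + s) / (3 * K)) ((3 * K * n + s) % (3 * K)) := by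
  intro s
  induction s using Nat.strong_induction_on with
  | _ s ih =>
    intro n hs
    rcases Nat.lt_or_ge s (3 * K) with h | h
    · congr 1
      · rw [add_comm, Nat.add_mul_div_left _ _ (by omega), Nat.div_eq_of_lt h]; omega
      · rw [add_comm, Nat.add_mul_mod_self_left, Nat.mod_eq_of_lt h]
    · rw [nf_shift r3 hs h, ih (s - 3 * K) (by omega) (n + 1) (by omega)]
      have : 3 * K * (n + 1) + (s - 3 * K) = 3 * K * n + s := by
        rw [mul_add]; omega
      rw [this]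

end NF

section Ideal2

variable (k : Type u) [Field k] (K : ℕ)

/-- weight of an exponent -/
def wt (u : Fin 4 →₀ ℕ) : ℕ := ∑ i, u i * gK K i

theorem aeval_monomial_eq (u : Fin 4 →₀ ℕ) (c : k) :
    (aeval (fun i => (Polynomial.X : Polynomial k) ^ gK K i) : MvPolynomial (Fin 4) k →ₐ[k] _)
      (monomial u c) = Polynomial.monomial (wt K u) c := by
  have hc : algebraMap k (Polynomial k) c = Polynomial.C c := rfl
  rw [aeval_monomial, Finsupp.prod_fintype _ _ (by simp), hc, wt,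
    ← Polynomial.C_mul_X_pow_eq_monomial, ← Finset.prod_pow_eq_pow_sum]
  refine congrArg (fun z => Polynomial.C c * z) (Finset.prod_congr rfl ?_)
  intro i _
  rw [← pow_mul, mul_comm]

theorem mk_monomial_eq (J : Ideal (MvPolynomial (Fin 4) k)) (u : Fin 4 →₀ ℕ) :
    Ideal.Quotient.mk J (monomial u 1) =
      Ideal.Quotient.mk J (X 0) ^ u 0 * Ideal.Quotient.mk J (X 1) ^ u 1 *
        Ideal.Quotient.mk J (X 2) ^ u 2 * Ideal.Quotient.mk J (X 3) ^ u 3 := by
  rw [monomial_eq, Finsupp.prod_fintype _ _ (by simp), Fin.prod_univ_four]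
  simp

theorem mk_eq (hK : 2 ≤ K) (u v : Fin 4 →₀ ℕ) (h : wt K u = wt K v) :
    monomial u (1 : k) - monomial v 1 ∈ Ideal.span (Set.range (rel k K)) := by
  set J := Ideal.span (Set.range (rel k K)) with hJ
  have hr : ∀ i, Ideal.Quotient.mk J (rel k K i) = 0 := fun i =>
    Ideal.Quotient.eq_zero_iff_mem.mpr (Ideal.subset_span ⟨i, rfl⟩)
  set y : Fin 4 → (MvPolynomial (Fin 4) k ⧸ J) := fun i => Ideal.Quotient.mk J (X i) with hy
  have r0 : y 0 * y 2 = y 1 ^ 2 := by
    have := hr 0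
    simp only [rel, Matrix.cons_val_zero, map_sub, map_mul, map_pow] at this
    exact sub_eq_zero.mp this
  have r1 : y 0 * y 3 = y 1 * y 2 := by
    have := hr 1
    simp only [rel, Matrix.cons_val_one, map_sub, map_mul, map_pow] at this
    exact sub_eq_zero.mp (by simpa using this)
  have r2 : y 1 * y 3 = y 2 ^ 2 := by
    have := hr 2
    simp only [rel, map_sub, map_mul, map_pow] at this
    exact sub_eq_zero.mp (by simpa using this)
  have r3 : y 0 ^ (K + 1) = y 3 ^ K := by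
    have := hr 3
    simp only [rel, map_sub, map_mul, map_pow] at this
    exact sub_eq_zero.mp (by simpa using this)
  rw [← Ideal.Quotient.eq_zero_iff_mem, map_sub, sub_eq_zero, mk_monomial_eq, mk_monomial_eq]
  have key : ∀ w : Fin 4 →₀ ℕ, y 0 ^ w 0 * y 1 ^ w 1 * y 2 ^ w 2 * y 3 ^ w 3 =
      nf (y 0) (y 1) (y 2) (y 3) (wt K w / (3 * K)) (wt K w % (3 * K)) := by
    intro w
    rw [nf_monomial r0 r1 r2, nf_deg r3 hK _ _ (by omega)]
    have hw : 3 * K * (w 0 + w 1 + w 2 + w 3) + (w 1 + 2 * w 2 + 3 * w 3) = wt K w := by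
      simp only [wt, Fin.sum_univ_four, gK, Matrix.cons_val_zero, Matrix.cons_val_one,
        Matrix.cons_val]
      ring
    rw [hw]
  have h1 := key u
  have h2 := key v
  simp only [hy] at h1 h2 ⊢
  rw [h1, h2, h]

theorem span_rel (hK : 2 ≤ K) : Ideal.span (Set.range (rel k K)) = defIdeal k (gK K) := by
  classical
  refine le_antisymm ?_ ?_
  · rw [Ideal.span_le]
    rintro _ ⟨i, rfl⟩
    exact rel_mem k K i
  · intro f hf
    have hf0 : (aeval (fun i => (Polynomial.X : Polynomial k) ^ gK K i) :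
        MvPolynomial (Fin 4) k →ₐ[k] _) f = 0 := hf
    -- a section of the weight map
    let r : ℕ → (Fin 4 →₀ ℕ) := fun d => if h : ∃ u, wt K u = d then h.choose else 0
    have hr : ∀ u, wt K (r (wt K u)) = wt K u := by
      intro u
      have h : ∃ v, wt K v = wt K u := ⟨u, rfl⟩
      simp only [r, dif_pos h]
      exact h.choose_spec
    let L : Polynomial k →ₗ[k] MvPolynomial (Fin 4) k :=
      (Polynomial.basisMonomials k).constr k (fun d => monomial (r d) (1 : k))
    have hL : ∀ (d : ℕ) (c : k), L (Polynomial.monomial d c) = monomial (r d) c := by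
      intro d c
      have h1 : Polynomial.monomial d c = c • (Polynomial.basisMonomials k) d := by
        rw [Polynomial.coe_basisMonomials, Polynomial.smul_monomial, smul_eq_mul, mul_one]
      rw [h1, map_smul, Module.Basis.constr_basis, smul_monomial, smul_eq_mul, mul_one]
    have key : ∀ g : MvPolynomial (Fin 4) k,
        g - L ((aeval (fun i => (Polynomial.X : Polynomial k) ^ gK K i) :
          MvPolynomial (Fin 4) k →ₐ[k] _) g) ∈ Ideal.span (Set.range (rel k K)) := by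
      intro g
      induction g using MvPolynomial.induction_on' with
      | monomial u c =>
        rw [aeval_monomial_eq, hL]
        have h1 := mk_eq k K hK u (r (wt K u)) (hr u).symm
        have h2 := Ideal.mul_mem_left _ (C c) h1
        rwa [mul_sub, C_mul_monomial, C_mul_monomial, mul_one] at h2
      | add p q hp hq =>
        rw [map_add, map_add]
        have := Ideal.add_mem _ hp hq
        convert this using 1
        ring
    have := key f
    rwa [hf0, map_zero, sub_zero] at this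

/-- A monomial that is alone in its degree has coefficient `0` in every element of the ideal. -/
theorem coeff_zero (f : MvPolynomial (Fin 4) k) (hf : f ∈ defIdeal k (gK K)) (u : Fin 4 →₀ ℕ)
    (hu : ∀ v, wt K v = wt K u → v = u) : coeff u f = 0 := by
  classical
  have hf0 : (aeval (fun i => (Polynomial.X : Polynomial k) ^ gK K i) :
        MvPolynomial (Fin 4) k →ₐ[k] _) f = 0 := hf
  have h1 : ∀ g : MvPolynomial (Fin 4) k,
      ((aeval (fun i => (Polynomial.X : Polynomial k) ^ gK K i) :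
          MvPolynomial (Fin 4) k →ₐ[k] _) g).coeff (wt K u) = coeff u g := by
    intro g
    induction g using MvPolynomial.induction_on' with
    | monomial v c =>
      rw [aeval_monomial_eq, Polynomial.coeff_monomial, coeff_monomial]
      by_cases h : wt K v = wt K u
      · rw [if_pos h, if_pos (hu v h)]
      · rw [if_neg h, if_neg]
        rintro rfl
        exact h rfl
    | add p q hp hq => rw [map_add, Polynomial.coeff_add, coeff_add, hp, hq]
  rw [← h1 f, hf0, Polynomial.coeff_zero]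

/-- All proper divisors of `t` are alone in their degrees. -/
def Good (t : Fin 4 →₀ ℕ) : Prop := ∀ u v, u ≤ t → u ≠ t → wt K v = wt K u → v = u

theorem coeff_mul_good (p f : MvPolynomial (Fin 4) k) (hf : f ∈ defIdeal k (gK K))
    (t : Fin 4 →₀ ℕ) (ht : Good K t) : coeff t (p * f) = coeff 0 p * coeff t f := by
  classical
  rw [coeff_mul]
  refine Finset.sum_eq_single (0, t) ?_ ?_
  · rintro ⟨a, b⟩ hab hne
    rw [Finset.HasAntidiagonal.mem_antidiagonal] at hab
    simp only at hab ⊢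
    have hbt : b ≠ t := by
      rintro rfl
      apply hne
      have : a = 0 := by simpa using hab
      rw [this]
    have hble : b ≤ t := by rw [← hab]; exact le_add_self
    rw [coeff_zero k K f hf b (fun v hv => ht b v hble hbt hv), mul_zero]
  · intro h
    exact absurd (Finset.HasAntidiagonal.mem_antidiagonal.mpr (zero_add t)) h

end Ideal2

/-- exponent vectors as functions -/
noncomputable def ex (a b c d : ℕ) : Fin 4 →₀ ℕ := Finsupp.equivFunOnFinite.symm ![a, b, c, d]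

theorem ex_apply (a b c d : ℕ) : ex a b c d 0 = a ∧ ex a b c d 1 = b ∧ ex a b c d 2 = c ∧
    ex a b c d 3 = d := by
  simp [ex]

theorem wt_eq (K : ℕ) (u : Fin 4 →₀ ℕ) :
    wt K u = 3 * K * (u 0 + u 1 + u 2 + u 3) + (u 1 + 2 * u 2 + 3 * u 3) := by
  simp only [wt, Fin.sum_univ_four, gK, Matrix.cons_val_zero, Matrix.cons_val_one,
        Matrix.cons_val]
  ring

theorem fin4_ext {u v : Fin 4 →₀ ℕ} (h0 : u 0 = v 0) (h1 : u 1 = v 1) (h2 : u 2 = v 2)
    (h3 : u 3 = v 3) : u = v := by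
  ext i
  fin_cases i <;> assumption

/-- If the number of factors of `u` is at most `K` and the offset is less than `3K`,
a vector `v` with the same weight has the same number of factors and the same offset. -/
theorem wt_inj {K : ℕ} (hK : 2 ≤ K) {n s m r : ℕ} (hn : n ≤ K) (hs : s ≤ 3 * n) (hns : s < 3 * K)
    (hr : r ≤ 3 * m) (h : 3 * K * m + r = 3 * K * n + s) : m = n ∧ r = s := by
  have hmn : m = n := by
    rcases Nat.lt_trichotomy m n with hlt | heq | hgt
    · exfalso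
      have h1 : 3 * K * (m + 1) ≤ 3 * K * n := Nat.mul_le_mul_left _ hlt
      rw [mul_add, mul_one] at h1
      omega
    · exact heq
    · exfalso
      have h1 : 3 * K * (n + 1) ≤ 3 * K * m := Nat.mul_le_mul_left _ hgt
      rw [mul_add, mul_one] at h1
      omega
  subst hmn
  exact ⟨rfl, by omega⟩

theorem good_pair (K : ℕ) (hK : 2 ≤ K) (t : Fin 4 →₀ ℕ) (ht : t 0 + t 1 + t 2 + t 3 = 2) :
    Good K t := by
  intro u v hut hne hw
  have hle0 := hut 0
  have hle1 := hut 1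
  have hle2 := hut 2
  have hle3 := hut 3
  have hlt : u 0 + u 1 + u 2 + u 3 ≤ 1 := by
    by_contra hcon
    exact hne (fin4_ext (by omega) (by omega) (by omega) (by omega))
  rw [wt_eq, wt_eq] at hw
  obtain ⟨h1, h2⟩ := wt_inj hK (by omega) (by omega) (by omega) (by omega) hw
  have a1 : u 3 = 0 ∨ u 3 = 1 := by omega
  have a2 : v 3 = 0 ∨ v 3 = 1 := by omega
  have a3 : u 2 = 0 ∨ u 2 = 1 := by omega
  have a4 : v 2 = 0 ∨ v 2 = 1 := by omega
  rcases a1 with a1 | a1 <;> rcases a2 with a2 | a2 <;> rcases a3 with a3 | a3 <;>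
    rcases a4 with a4 | a4 <;>
    exact fin4_ext (by omega) (by omega) (by omega) (by omega)

theorem good_pow (K : ℕ) (hK : 2 ≤ K) (t : Fin 4 →₀ ℕ) (h0 : t 0 = K + 1) (h1 : t 1 = 0)
    (h2 : t 2 = 0) (h3 : t 3 = 0) : Good K t := by
  intro u v hut hne hw
  have hle0 := hut 0
  have hle1 := hut 1
  have hle2 := hut 2
  have hle3 := hut 3
  have hlt : u 0 ≤ K := by
    by_contra hcon
    exact hne (fin4_ext (by omega) (by omega) (by omega) (by omega))
  rw [wt_eq, wt_eq] at hw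
  obtain ⟨h4, h5⟩ := wt_inj hK (by omega) (by omega) (by omega) (by omega) hw
  exact fin4_ext (by omega) (by omega) (by omega) (by omega)

/-- The four test exponents. -/
noncomputable def tt (K : ℕ) : Fin 4 → (Fin 4 →₀ ℕ) :=
  ![ex 1 0 1 0, ex 1 0 0 1, ex 0 1 0 1, ex (K + 1) 0 0 0]

theorem tt_good (K : ℕ) (hK : 2 ≤ K) (j : Fin 4) : Good K (tt K j) := by
  fin_cases j
  · exact good_pair K hK _ (by simp [tt, ex])
  · exact good_pair K hK _ (by simp [tt, ex])
  · exact good_pair K hK _ (by simp [tt, ex])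
  · exact good_pow K hK _ (by simp [tt, ex]) (by simp [tt, ex]) (by simp [tt, ex])
      (by simp [tt, ex])

section Lower

variable (k : Type u) [Field k] (K : ℕ)

/-- The test map. -/
noncomputable def Phi : MvPolynomial (Fin 4) k →ₗ[k] (Fin 4 → k) :=
  LinearMap.pi (fun j => lcoeff k (tt K j))

theorem Phi_apply (f : MvPolynomial (Fin 4) k) (j : Fin 4) :
    Phi k K f j = coeff (tt K j) f := rfl

theorem X_pow_eq (i : Fin 4) (n : ℕ) : (X i : MvPolynomial (Fin 4) k) ^ n =
    monomial (Finsupp.single i n) 1 := by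
  rw [X_pow_eq_monomial]

theorem rel_eq (i : Fin 4) : rel k K i =
    (![monomial (ex 1 0 1 0) 1 - monomial (ex 0 2 0 0) 1,
      monomial (ex 1 0 0 1) 1 - monomial (ex 0 1 1 0) 1,
      monomial (ex 0 1 0 1) 1 - monomial (ex 0 0 2 0) 1,
      monomial (ex (K + 1) 0 0 0) 1 - monomial (ex 0 0 0 K) 1] : Fin 4 → MvPolynomial (Fin 4) k) i := by
  have hm : ∀ a b c d : ℕ, (monomial (ex a b c d) 1 : MvPolynomial (Fin 4) k) =
      X 0 ^ a * X 1 ^ b * X 2 ^ c * X 3 ^ d := by
    intro a b c d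
    rw [monomial_eq, Finsupp.prod_fintype _ _ (by simp), Fin.prod_univ_four]
    simp [ex]
  fin_cases i <;> simp [rel, hm]

theorem ex_inj {a b c d a' b' c' d' : ℕ} : ex a b c d = ex a' b' c' d' ↔
    a = a' ∧ b = b' ∧ c = c' ∧ d = d' := by
  constructor
  · intro h
    have h0 := congrArg (fun u => u 0) h
    have h1 := congrArg (fun u => u 1) h
    have h2 := congrArg (fun u => u 2) h
    have h3 := congrArg (fun u => u 3) h
    simp only [(ex_apply _ _ _ _).1, (ex_apply _ _ _ _).2.1, (ex_apply _ _ _ _).2.2.1,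
      (ex_apply _ _ _ _).2.2.2] at h0 h1 h2 h3
    exact ⟨h0, h1, h2, h3⟩
  · rintro ⟨rfl, rfl, rfl, rfl⟩
    rfl

theorem Phi_rel (hK : 2 ≤ K) (i j : Fin 4) : Phi k K (rel k K i) j = if i = j then 1 else 0 := by
  classical
  rw [Phi_apply, rel_eq]
  have hK0 : K ≠ 0 := by omega
  have hK1 : K + 1 ≠ 1 := by omega
  fin_cases i <;> fin_cases j <;>
    simp [tt, coeff_sub, coeff_monomial, ex_inj, hK0]

theorem lower (hK : 2 ≤ K) (n : ℕ) (f : Fin n → MvPolynomial (Fin 4) k)
    (hf : Ideal.span (Set.range f) = defIdeal k (gK K)) : 4 ≤ n := by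
  classical
  have hfmem : ∀ i, f i ∈ defIdeal k (gK K) := fun i => hf ▸ Ideal.subset_span ⟨i, rfl⟩
  -- the image of the ideal lies in the span of the `Phi (f i)`
  have hspan : ∀ g ∈ defIdeal k (gK K), Phi k K g ∈
      Submodule.span k (Set.range (fun i => Phi k K (f i))) := by
    intro g hg
    rw [← hf] at hg
    rw [Ideal.mem_span_range_iff_exists_fun] at hg
    obtain ⟨c, rfl⟩ := hg
    rw [map_sum]
    refine Submodule.sum_mem _ ?_
    intro i _
    have : Phi k K (c i * f i) = coeff 0 (c i) • Phi k K (f i) := by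
      ext j
      rw [Phi_apply, coeff_mul_good k K _ _ (hfmem i) _ (tt_good K hK j)]
      rfl
    rw [this]
    exact Submodule.smul_mem _ _ (Submodule.subset_span ⟨i, rfl⟩)
  have htop : Submodule.span k (Set.range (fun i => Phi k K (f i))) = ⊤ := by
    rw [eq_top_iff]
    rintro x -
    have hx : x = ∑ i, x i • Phi k K (rel k K i) := by
      ext j
      rw [Finset.sum_apply]
      simp only [Pi.smul_apply, Phi_rel k K hK, smul_eq_mul, mul_ite, mul_one, mul_zero]
      rw [Finset.sum_ite_eq' Finset.univ j]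
      simp
    rw [hx]
    exact Submodule.sum_mem _ fun i _ => Submodule.smul_mem _ _ (hspan _ (rel_mem k K i))
  have h1 : (Set.range (fun i => Phi k K (f i))).finrank k ≤ Fintype.card (Fin n) :=
    finrank_range_le_card _
  rw [Set.finrank, htop, finrank_top, Module.finrank_fin_fun, Fintype.card_fin] at h1
  exact h1

theorem isRho (hK : 2 ≤ K) : IsRho k (gK K) 4 := by
  refine ⟨⟨rel k K, rel_homog k K, span_rel k K hK⟩, ?_⟩
  rintro n ⟨f, -, hf⟩
  exact lower k K hK n f hf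

end Lower

/-- For every `K ≥ 2` there is a numerical semigroup with the four minimal generators
`3K, 3K+1, 3K+2, 3K+3` that is nearly Gorenstein and not almost symmetric and whose number of
minimal relations is `4`, over every field. -/
theorem result (K : ℕ) (hK : 2 ≤ K) :
    ∃ S : AddSubmonoid ℕ, IsNumerical S ∧
      minGens S = {3 * K, 3 * K + 1, 3 * K + 2, 3 * K + 3} ∧
      NearlyGorenstein S ∧ ¬ AlmostSymmetric S ∧
      ∀ (k : Type u) [Field k],
        IsRho k (![3 * K, 3 * K + 1, 3 * K + 2, 3 * K + 3] : Fin 4 → ℕ) 4 :=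
  ⟨SK K, numerical K hK, minGens_SK K hK, nearly K hK, not_as K hK, fun k _ => isRho k K hK⟩

end Pool.Agent.Results.MP_8e9e7d_al.FourRelations
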